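import Pool.Agent.J4.H83.HD.Final2

/-!
# Hard disks near close packing: the free volume equation of state in the thermodynamic limit

Hard disks of radius `a` in the plane, close-packing density `ρ₀ = 1 / (2 √3 a²)`, `v₀ = 1 / ρ₀`. The limiting free
energy per particle `f` exists and, as the volume per particle `v` tends to `v₀`,
`f(1/v) = -2 log (v - v₀) + log (12 a²) - s + o(1)`. Hence the pressure `P(v) = -(d/dv) f(1/v)` satisfies
`P(v) (v - v₀) → 2` (stated for difference quotients), and a first order phase transition between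
`v₁ < v₂` has `(v₂ - v₀) / (v₁ - v₀) → 1` as `v₁ → v₀`. The number `s` is the limit of the normalised logarithms of the
volumes of explicit polytopes: the linearised configuration spaces of the interior disks of a rhombus of
`m × m` cells of the hexagonal packing with fixed boundary, dilated by the factor one.

Proof. Lower bound for the partition function: rhombic blocks with pinned boundaries. Upper bound: (1) the truncated
Voronoi cells give a lattice in all but few squares of the side `M`, and `∑ gaps ≤ √3 (1 + o(1)) δ N`. (2) The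
configuration space of the good squares is estimated by Hölder's inequality for the `3 m²` tilings by
translated and rotated rhombi, with the volumes of the interior configurations given the boundary. (3) These
volumes are log-concave functions of the boundary displacements (Prekopa-Leindler), so their geometric mean is
bounded by the volume for the averaged boundary displacement, which is nearly a dilation, because the second
differences of a displacement field are first differences of the gaps (compatibility), and by the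
rotations. (4) Convexity of the free energy.
-/

set_option autoImplicit false

open MeasureTheory Set Filter Topology

namespace Pool.Agent.Results.MP_09cbbd_mp.FreeVolumeAsymptotics

/-- The hard-core function: `1` if the balls of radius `a` at distance `t` do not overlap. -/
noncomputable def S (a t : ℝ) : ℝ := if 2 * a ≤ t then 1 else 0

/-- The partition function `Z(Λ, N) = (1/N!) ∫_{Λ^N} ∏_{i<j} S(|x_i - x_j|) dx` of the cube
`Λ = [0, L]^d` in `ℝ^d`. -/
noncomputable def Z (d : ℕ) (a L : ℝ) (N : ℕ) : ℝ :=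
  1 / (N.factorial : ℝ) * ∫ x in {x : Fin N → Fin d → ℝ | ∀ i k, x i k ∈ Set.Icc (0 : ℝ) L},
    ∏ i, ∏ j ∈ Finset.Ioi i, S a (√(∑ k, (x i k - x j k) ^ 2))

/-- The thermodynamic limit: squares of side `L → ∞` and `N / L² → ρ`. -/
def Thermo (ρ : ℝ) (L : ℕ → ℝ) (N : ℕ → ℕ) : Prop :=
  Tendsto L atTop atTop ∧ Tendsto (fun k => (N k : ℝ) / L k ^ 2) atTop (𝓝 ρ)

/-- `y` is the limiting free energy per particle of hard disks of radius `a` at density `ρ`. -/
def IsFreeEnergy (a ρ y : ℝ) : Prop := ∀ (L : ℕ → ℝ) (N : ℕ → ℕ), Thermo ρ L N →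
  Tendsto (fun k => -(1 / (N k : ℝ)) * Real.log (Z 2 a (L k) (N k))) atTop (𝓝 y)

/-- The close-packing density of disks of radius `a`. -/
noncomputable def ρ₀ (a : ℝ) : ℝ := 1 / (2 * √3 * a ^ 2)

/-- The volume per particle at close packing. -/
noncomputable def v₀ (a : ℝ) : ℝ := 2 * √3 * a ^ 2

/-- `ω = e^{2πi/3}`. -/
noncomputable def ω : ℂ := ⟨-1 / 2, √3 / 2⟩

/-- The point `z.1 + z.2 ω` of the triangular lattice. -/
noncomputable def latt (z : ℤ × ℤ) : ℂ := z.1 + z.2 * ω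

/-- The lattice directions `1, ω, ω²` in coordinates. -/
def dir : Fin 3 → ℤ × ℤ := ![(1, 0), (0, 1), (-1, -1)]

/-- The points of the closed rhombus of side `m`. -/
noncomputable def Rh (m : ℕ) : Finset (ℤ × ℤ) := Finset.Icc 0 (m : ℤ) ×ˢ Finset.Icc 0 (m : ℤ)

/-- Its interior points. -/
noncomputable def Rh' (m : ℕ) : Finset (ℤ × ℤ) := Finset.Ioo 0 (m : ℤ) ×ˢ Finset.Ioo 0 (m : ℤ)

/-- The displacement field with the values `w` at the interior points and the dilation `latt` at the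
other points. -/
noncomputable def field (m : ℕ) (w : Rh' m → ℂ) (z : ℤ × ℤ) : ℂ :=
  if h : z ∈ Rh' m then w ⟨z, h⟩ else latt z

/-- The polytope of the displacements of the interior points of the rhombus which do not shorten
(to first order) any edge of the rhombus with an interior end point, where the boundary points have the
displacement of the dilation. -/
def Poly (m : ℕ) : Set (Rh' m → ℂ) :=
  {w | ∀ z ∈ Rh m, ∀ k : Fin 3, z + dir k ∈ Rh m → (z ∈ Rh' m ∨ z + dir k ∈ Rh' m) →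
    0 ≤ ((starRingEnd ℂ) (ω ^ (k : ℕ)) * (field m w (z + dir k) - field m w z)).re}

open Pool.Agent.J4.H83.FV Pool.Agent.J4.H83.HD in
theorem result :
    -- the polytopes have finite positive volumes, with a limit of the normalised logarithms
    (∀ m, 0 < volume (Poly m) ∧ volume (Poly m) ≠ ⊤) ∧
    ∃ s : ℝ, Tendsto (fun m : ℕ => Real.log (volume (Poly m)).toReal / (m : ℝ) ^ 2) atTop (𝓝 s) ∧
    ∃ C : ℝ, 1 ≤ C ∧ ∀ a : ℝ, 0 < a →
    -- `ρ₀` is the close-packing density
    (∀ ρ, ρ₀ a < ρ → ∀ L N, Thermo ρ L N → ∀ᶠ k in atTop, Z 2 a (L k) (N k) = 0) ∧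
    -- the limiting free energy exists
    ∃ f : ℝ → ℝ, (∀ ρ, 0 < ρ → ρ < ρ₀ a → IsFreeEnergy a ρ (f ρ)) ∧
      -- (1) its asymptotics at close packing
      Tendsto (fun v => f (1 / v) + 2 * Real.log (v - v₀ a)) (𝓝[>] (v₀ a))
        (𝓝 (Real.log (12 * a ^ 2) - s)) ∧
      -- (2) the pressure times `v - v₀` tends to `2`
      (∀ ε, 0 < ε → ∃ δ, 0 < δ ∧ ∀ v₁ v₂, v₀ a < v₁ → v₁ < v₂ → v₂ < v₀ a + δ →
        (2 - ε) / (v₂ - v₀ a) ≤ (f (1 / v₁) - f (1 / v₂)) / (v₂ - v₁) ∧
        (f (1 / v₁) - f (1 / v₂)) / (v₂ - v₁) ≤ (2 + ε) / (v₁ - v₀ a)) ∧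
      -- (3) first order phase transitions near close packing
      (∀ ε, 0 < ε → ∃ δ, 0 < δ ∧ ∀ v₁ v₂ A P, v₀ a < v₁ → v₁ < v₂ → v₁ < v₀ a + δ →
        (∀ v ∈ Icc v₁ v₂, f (1 / v) = A - P * v) → v₂ - v₀ a ≤ (1 + ε) * (v₁ - v₀ a)) ∧
      -- (4) all densities: bounds for the free energy, the pressure and first order transitions
      (∀ ρ, 0 < ρ → ρ < ρ₀ a → |f ρ - (Real.log ρ - 2 * Real.log (1 - ρ / ρ₀ a))| ≤ C) ∧
      (∀ v₁ v₂, v₀ a < v₁ → v₁ < v₂ →
        1 / (C * (v₂ - v₀ a)) ≤ (f (1 / v₁) - f (1 / v₂)) / (v₂ - v₁) ∧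
        (f (1 / v₁) - f (1 / v₂)) / (v₂ - v₁) ≤ C / (v₁ - v₀ a)) ∧
      (∀ v₁ v₂ A P, v₀ a < v₁ → v₁ < v₂ → (∀ v ∈ Icc v₁ v₂, f (1 / v) = A - P * v) →
        v₂ - v₀ a ≤ C ^ 2 * (v₁ - v₀ a)) := by
  have hW : ∀ m, volume (Poly m) = W m Pool.Agent.J4.H83.HD.pt := fun m => rfl
  refine ⟨fun m => ?_, ?_⟩
  · rw [hW]
    exact ⟨lt_of_lt_of_le (by positivity) (W_pt_ge m),
      ne_top_of_le_ne_top ENNReal.ofReal_ne_top (W_pt_le m)⟩
  obtain ⟨B, hB⟩ := kappa_bdd
  obtain ⟨s, hs⟩ := klim B hB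
  refine ⟨s, hs, ?_⟩
  obtain ⟨C, hC1, hseq, hf⟩ := main_norm
  have hC0 : 0 < C := by linarith
  refine ⟨C, hC1, fun a ha => ?_⟩
  have h2a : 0 < 2 * a := by positivity
  have h4a : 0 < (2 * a) ^ 2 := by positivity
  have h3p : 0 < √3 := by positivity
  have h3 := sqrt3_sq
  have hvc := vc_pos
  have hρ₀ : ρ₀ a = rc / (2 * a) ^ 2 := by
    unfold ρ₀ rc
    field_simp
  have hv₀ : v₀ a = (2 * a) ^ 2 * vc := by
    unfold v₀ vc
    ring
  have hZ : ∀ L N, Z 2 a L N = Pool.Agent.J4.H83.FV.Z 2 a L N := fun _ _ => rfl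
  have hρr : ∀ {ρ : ℝ}, ρ < ρ₀ a → (2 * a) ^ 2 * ρ < rc := by
    intro ρ h
    rw [hρ₀, lt_div_iff₀ (by positivity)] at h
    linarith
  refine ⟨?_, ?_⟩
  · -- close packing
    intro ρ hρ L N h
    obtain ⟨t1, t2⟩ := Thm_scale ha h
    have hρ' : rc < (2 * a) ^ 2 * ρ := by
      rw [hρ₀, div_lt_iff₀ (by positivity)] at hρ
      linarith
    have hlim : Tendsto (fun k => ((L k / (2 * a) + 2 * R) / (L k / (2 * a))) ^ 2 -
        √3 / 2 * ((N k : ℝ) / (L k / (2 * a)) ^ 2)) atTop (𝓝 (1 ^ 2 - √3 / 2 * ((2 * a) ^ 2 * ρ))) := by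
      refine Tendsto.sub (Tendsto.pow ?_ 2) (t2.const_mul _)
      have h1 : Tendsto (fun k => 1 + 2 * R / (L k / (2 * a))) atTop (𝓝 (1 + 0)) :=
        tendsto_const_nhds.add (t1.const_div_atTop _)
      rw [add_zero] at h1
      refine h1.congr' ?_
      filter_upwards [t1.eventually_gt_atTop 0] with k hk
      have : L k / (2 * a) ≠ 0 := hk.ne'
      rw [add_div, div_self this]
    have hneg : (1 : ℝ) ^ 2 - √3 / 2 * ((2 * a) ^ 2 * ρ) < 0 := by
      rw [half_rc, one_pow, one_div, inv_mul_eq_div]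
      have : 1 < (2 * a) ^ 2 * ρ / rc := by rw [lt_div_iff₀ rc_pos]; linarith
      linarith
    filter_upwards [hlim.eventually (gt_mem_nhds hneg), t1.eventually_gt_atTop 0] with k hk hk0
    have hemp : Pool.Agent.J4.H83.FV.A (N k) (L k / (2 * a)) = ∅ := by
      by_contra hne
      obtain ⟨x, hx⟩ := Set.nonempty_iff_ne_empty.2 hne
      have hs := sum_ex x hk0.le hx.1 hx.2
      obtain ⟨ε₀, -, C', -, hst⟩ := structure_thm
      have hpos : 0 ≤ ∑ i, ex x i := Finset.sum_nonneg fun i _ => (hst _ x hx.2 i).1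
      have h2 : 0 < (L k / (2 * a)) ^ 2 := by positivity
      have h4 : (((L k / (2 * a) + 2 * R) / (L k / (2 * a))) ^ 2 -
          √3 / 2 * ((N k : ℝ) / (L k / (2 * a)) ^ 2)) * (L k / (2 * a)) ^ 2 =
          (L k / (2 * a) + 2 * R) ^ 2 - √3 / 2 * (N k) := by
        have hne' : L k / (2 * a) ≠ 0 := hk0.ne'
        set y := L k / (2 * a)
        field_simp
      have h5 := mul_neg_of_neg_of_pos hk h2
      rw [h4] at h5
      linarith
    rw [hZ, Z_scale ha, zr_eq, hemp]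
    simp
  -- the limiting free energy of disks of diameter one
  have hex : ∀ ρ, ∃ y, 0 < ρ → ρ < rc → IsFE ρ y := by
    intro ρ
    by_cases h : 0 < ρ ∧ ρ < rc
    · obtain ⟨y, hy⟩ := exists_FE ρ h.1 h.2
      exact ⟨y, fun _ _ => hy⟩
    · exact ⟨0, fun h1 h2 => absurd ⟨h1, h2⟩ h⟩
  choose g hg using hex
  set f : ℝ → ℝ := fun ρ => g ((2 * a) ^ 2 * ρ) - 2 * Real.log (2 * a) with hfdef
  have hfv : ∀ v, f (1 / v) = g (1 / (v / (2 * a) ^ 2)) - 2 * Real.log (2 * a) := by
    intro v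
    rw [hfdef]
    simp only
    rw [one_div_div, mul_one_div]
  obtain ⟨hg1, hg2⟩ := hf g hg
  refine ⟨f, fun ρ h1 h2 => FE_scale ha h1 (hρr h2) (hg _ (by positivity) (hρr h2)), ?_⟩
  have hdom : ∀ {v : ℝ}, v₀ a < v → vc < v / (2 * a) ^ 2 := by
    intro v hv
    rw [lt_div_iff₀ h4a]; rw [hv₀] at hv; linarith
  -- (1)
  have h1 : Tendsto (fun v => f (1 / v) + 2 * Real.log (v - v₀ a)) (𝓝[>] (v₀ a))
      (𝓝 (Real.log (12 * a ^ 2) - s)) := by
    have hl := norm_limit s hs g hg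
    have hsc : Tendsto (fun v : ℝ => v / (2 * a) ^ 2) (𝓝[>] (v₀ a)) (𝓝[>] vc) := by
      refine tendsto_nhdsWithin_iff.2 ⟨?_, ?_⟩
      · have e : vc = v₀ a / (2 * a) ^ 2 := by rw [hv₀]; field_simp
        rw [e]
        exact (tendsto_id.div_const _).mono_left nhdsWithin_le_nhds
      · filter_upwards [self_mem_nhdsWithin] with v hv
        exact hdom hv
    have h5 := (hl.comp hsc).add_const (2 * Real.log (2 * a))
    have e1 : Real.log 3 - s + 2 * Real.log (2 * a) = Real.log (12 * a ^ 2) - s := by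
      have : Real.log (12 * a ^ 2) = Real.log 3 + 2 * Real.log (2 * a) := by
        rw [show (12 : ℝ) * a ^ 2 = 3 * (2 * a) ^ 2 by ring, Real.log_mul (by norm_num) h4a.ne',
          Real.log_pow]
        push_cast
        ring
      rw [this]
      ring
    rw [e1] at h5
    refine h5.congr' ?_
    filter_upwards [self_mem_nhdsWithin] with v hv
    have hv' : v₀ a < v := hv
    have h6 : v / (2 * a) ^ 2 - vc = (v - v₀ a) / (2 * a) ^ 2 := by rw [hv₀]; field_simp
    simp only [Function.comp]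
    rw [hfv, h6, Real.log_div (by linarith) h4a.ne', Real.log_pow]
    push_cast
    ring
  -- convexity
  have hconv : ConvexOn ℝ (Ioi (v₀ a)) fun v => f (1 / v) := by
    have hc := conv_v g hg
    refine ⟨convex_Ioi _, ?_⟩
    intro x hx y hy p q hp hq hpq
    have h5 := hc.2 (hdom hx) (hdom hy) hp hq hpq
    simp only [smul_eq_mul] at h5 ⊢
    rw [hfv, hfv, hfv]
    have e2 : (p * x + q * y) / (2 * a) ^ 2 = p * (x / (2 * a) ^ 2) + q * (y / (2 * a) ^ 2) := by ring
    rw [e2]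
    have e3 : p * (g (1 / (x / (2 * a) ^ 2)) - 2 * Real.log (2 * a)) +
        q * (g (1 / (y / (2 * a) ^ 2)) - 2 * Real.log (2 * a)) =
        p * g (1 / (x / (2 * a) ^ 2)) + q * g (1 / (y / (2 * a) ^ 2)) -
          (p + q) * (2 * Real.log (2 * a)) := by ring
    rw [e3, hpq]
    linarith
  have h2 := conv_asym (fun v => f (1 / v)) (v₀ a) _ hconv h1
  -- the global bound for the pressure
  have hpress : ∀ v₁ v₂, v₀ a < v₁ → v₁ < v₂ →
      1 / (C * (v₂ - v₀ a)) ≤ (f (1 / v₁) - f (1 / v₂)) / (v₂ - v₁) ∧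
      (f (1 / v₁) - f (1 / v₂)) / (v₂ - v₁) ≤ C / (v₁ - v₀ a) := by
    intro v₁ v₂ h1 h12
    have a2 : v₁ / (2 * a) ^ 2 < v₂ / (2 * a) ^ 2 := div_lt_div_of_pos_right h12 h4a
    have hh := hg2 _ _ (hdom h1) a2
    have e2 : (g (1 / (v₁ / (2 * a) ^ 2)) - g (1 / (v₂ / (2 * a) ^ 2))) /
        (v₂ / (2 * a) ^ 2 - v₁ / (2 * a) ^ 2) =
        (2 * a) ^ 2 * ((f (1 / v₁) - f (1 / v₂)) / (v₂ - v₁)) := by
      have : v₂ - v₁ ≠ 0 := by linarith
      rw [hfv, hfv, ← sub_div]
      field_simp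
      ring
    have e3 : 1 / (C * (v₂ / (2 * a) ^ 2 - vc)) = (2 * a) ^ 2 * (1 / (C * (v₂ - v₀ a))) := by
      have : v₂ - (2 * a) ^ 2 * vc ≠ 0 := by rw [hv₀] at h1; linarith
      have e4 : v₂ / (2 * a) ^ 2 - vc = (v₂ - (2 * a) ^ 2 * vc) / (2 * a) ^ 2 := by field_simp
      rw [hv₀, e4]
      field_simp
    have e5 : C / (v₁ / (2 * a) ^ 2 - vc) = (2 * a) ^ 2 * (C / (v₁ - v₀ a)) := by
      have : v₁ - (2 * a) ^ 2 * vc ≠ 0 := by rw [hv₀] at h1; linarith
      have e4 : v₁ / (2 * a) ^ 2 - vc = (v₁ - (2 * a) ^ 2 * vc) / (2 * a) ^ 2 := by field_simp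
      rw [hv₀, e4]
      field_simp
    rw [e2, e3, e5] at hh
    exact ⟨le_of_mul_le_mul_left hh.1 h4a, le_of_mul_le_mul_left hh.2 h4a⟩
  -- first order transitions at all densities
  have hfirst : ∀ v₁ v₂ A P, v₀ a < v₁ → v₁ < v₂ → (∀ v ∈ Icc v₁ v₂, f (1 / v) = A - P * v) →
      v₂ - v₀ a ≤ C ^ 2 * (v₁ - v₀ a) := by
    intro v₁ v₂ A P h1 h12 haff
    have h5 := affine_piece (fun v => f (1 / v)) (v₀ a) (1 / C) C (by positivity) hC0 h1 h12
      (fun y₁ y₂ g1 g2 _ => by
        have := hpress y₁ y₂ (by linarith) g2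
        refine ⟨le_trans (le_of_eq ?_) this.1, this.2⟩
        rw [div_div]) haff
    calc v₂ - v₀ a = C * (1 / C * (v₂ - v₀ a)) := by field_simp
      _ ≤ C * (C * (v₁ - v₀ a)) := mul_le_mul_of_nonneg_left h5 hC0.le
      _ = _ := by ring
  refine ⟨h1, h2, ?_, ?_, hpress, hfirst⟩
  · intro ε hε
    set e := min 1 (ε / 4) with he
    have he0 : 0 < e := by positivity
    have he1 : e ≤ 1 := min_le_left _ _
    have he2 : e ≤ ε / 4 := min_le_right _ _
    obtain ⟨δ, hδ, h5⟩ := h2 e he0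
    refine ⟨δ / C ^ 2, by positivity, ?_⟩
    intro v₁ v₂ A P g1 g12 g3 haff
    have g4 := hfirst v₁ v₂ A P g1 g12 haff
    have g5 : v₂ < v₀ a + δ := by
      have : C ^ 2 * (v₁ - v₀ a) < C ^ 2 * (δ / C ^ 2) :=
        mul_lt_mul_of_pos_left (by linarith) (by positivity)
      have e4 : C ^ 2 * (δ / C ^ 2) = δ := by field_simp
      linarith
    have h6 := affine_piece (fun v => f (1 / v)) (v₀ a) (2 - e) (2 + e) (by linarith) (by linarith)
      g1 g12 (fun y₁ y₂ k1 k2 k3 => h5 y₁ y₂ (by linarith) k2 (by linarith)) haff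
    have h7 : 0 < v₁ - v₀ a := by linarith
    have h8 : 2 + e ≤ (2 - e) * (1 + ε) := by nlinarith
    have h9 : (2 - e) * (v₂ - v₀ a) ≤ (2 - e) * ((1 + ε) * (v₁ - v₀ a)) := by
      calc (2 - e) * (v₂ - v₀ a) ≤ (2 + e) * (v₁ - v₀ a) := h6
        _ ≤ ((2 - e) * (1 + ε)) * (v₁ - v₀ a) := mul_le_mul_of_nonneg_right h8 h7.le
        _ = _ := by ring
    exact le_of_mul_le_mul_left h9 (by linarith)
  · intro ρ h1 h2
    have h5 := hg1 _ (by positivity) (hρr h2)
    have e : (2 * a) ^ 2 * ρ / rc = ρ / ρ₀ a := by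
      rw [hρ₀]; have := rc_pos; field_simp
    rw [e, Real.log_mul (by positivity) h1.ne', Real.log_pow] at h5
    push_cast at h5
    rw [hfdef]
    simp only
    convert h5 using 2
    ring

end Pool.Agent.Results.MP_09cbbd_mp.FreeVolumeAsymptotics
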