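import Pool.Agent.Results.MP_09cbbd_mp.FreeVolumeAsymptotics
import Pool.Agent.J4.H99.LY.Circle

/-!
# Hard disks in the grand canonical ensemble: the Lee–Yang zeros of large modulus

Hard disks of radius `a` in the square of side `L`, `Ξ_L(z) = ∑_N Z(Λ_L, N) z ^ N`, `ρ₀ = 1 / (2 √3 a²)` the
close-packing density. As `L → ∞`:
* the pressure `p(z) = lim L⁻² log Ξ_L(z)` is `ρ₀ (log z - 2 log log z + log (4 a²) + κ) + o(1)` as `z → ∞`,
  with an absolute constant `κ`;
* the number of the (complex) zeros of `Ξ_L` of modulus larger than `t`, counted with multiplicity, is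
  `(2 + o(1)) ρ₀ L² / log t`, first `L → ∞` and then `t → ∞`, while the number of all zeros is
  `(1 + o(1)) ρ₀ L²`;
* on most of the circle of radius `t` the polynomial is almost as large as at the point `t`.

Proof. The asymptotics of the free energy at close packing (`FreeVolumeAsymptotics`) give those of the
pressure, and the same for the mean of `L⁻² log |Ξ_L|` over the circle of radius `t` (the Mahler
measure of `Ξ_L(t z)`), since the coefficients of `Ξ_L(t z)` that matter have indices near the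
degree, so that the binomial coefficients in the comparison of coefficients with the Mahler measure are
small. The number of the zeros is obtained from the means over two circles by Jensen's formula.

With pieces by helper30, helper61 and helper81.
-/

set_option autoImplicit false

open MeasureTheory Filter Topology Polynomial

namespace Pool.Agent.Results.MP_09cbbd_mp.LeeYangZeros

/-- The hard-core function: `1` if the balls of radius `a` at distance `t` do not overlap. -/
noncomputable def S (a t : ℝ) : ℝ := if 2 * a ≤ t then 1 else 0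

/-- The partition function `Z(Λ, N) = (1/N!) ∫_{Λ^N} ∏_{i<j} S(|x_i - x_j|) dx` of the cube
`Λ = [0, L]^d` in `ℝ^d`. -/
noncomputable def Z (d : ℕ) (a L : ℝ) (N : ℕ) : ℝ :=
  1 / (N.factorial : ℝ) * ∫ x in {x : Fin N → Fin d → ℝ | ∀ i k, x i k ∈ Set.Icc (0 : ℝ) L},
    ∏ i, ∏ j ∈ Finset.Ioi i, S a (√(∑ k, (x i k - x j k) ^ 2))

/-- The close-packing density of disks of radius `a`. -/
noncomputable def ρ₀ (a : ℝ) : ℝ := 1 / (2 * √3 * a ^ 2)

/-- `P` is the grand canonical partition function of hard disks of radius `a` in the square of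
side `L`, as a polynomial in the activity. -/
def IsXi (a L : ℝ) (P : ℂ[X]) : Prop := ∀ N, P.coeff N = Z 2 a L N

open Classical in
/-- The number of the zeros of modulus larger than `t`, counted with multiplicity. -/
noncomputable def zeros (P : ℂ[X]) (t : ℝ) : ℕ := (P.roots.filter fun w => t < ‖w‖).card

open Pool.Agent.J4.H99.LY in
theorem result : ∃ κ : ℝ, ∀ a : ℝ, 0 < a →
    -- the polynomials exist
    (∀ L, ∃! P, IsXi a L P) ∧
    ∀ Ξ : ℝ → ℂ[X], (∀ L, IsXi a L (Ξ L)) →
      -- (1) the number of all zeros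
      Tendsto (fun L => ((Ξ L).roots.card : ℝ) / L ^ 2) atTop (𝓝 (ρ₀ a)) ∧
      -- (2) the pressure and its asymptotics
      (∃ p : ℝ → ℝ,
        (∀ z : ℝ, 0 < z →
          Tendsto (fun L => Real.log ‖(Ξ L).eval (z : ℂ)‖ / L ^ 2) atTop (𝓝 (p z))) ∧
        Tendsto (fun z => p z - ρ₀ a * (Real.log z - 2 * Real.log (Real.log z))) atTop
          (𝓝 (ρ₀ a * (Real.log (4 * a ^ 2) + κ)))) ∧
      -- (3) the means over the circles of large radius
      (∀ ε, 0 < ε → ∃ T, 1 < T ∧ ∀ t : ℝ, T ≤ t → ∀ᶠ L in atTop,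
        Real.log ‖(Ξ L).eval (t : ℂ)‖ - ε * L ^ 2 ≤
          Real.circleAverage (fun z => Real.log ‖(Ξ L).eval z‖) 0 t ∧
        Real.circleAverage (fun z => Real.log ‖(Ξ L).eval z‖) 0 t ≤
          Real.log ‖(Ξ L).eval (t : ℂ)‖) ∧
      -- (4) the zeros of large modulus
      (∀ ε, 0 < ε → ∃ T, 1 < T ∧ ∀ t, T ≤ t → ∀ᶠ L in atTop,
        (2 - ε) * ρ₀ a * L ^ 2 / Real.log t ≤ zeros (Ξ L) t ∧
        (zeros (Ξ L) t : ℝ) ≤ (2 + ε) * ρ₀ a * L ^ 2 / Real.log t) := by
  obtain ⟨-, s, -, C, -, hres⟩ := FreeVolumeAsymptotics.result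
  refine ⟨s - 2, fun a ha => ?_⟩
  obtain ⟨hzero, f, hfe, hK, -, -, hb, -, -⟩ := hres a ha
  have hr : 0 < ρ₀ a := by unfold ρ₀; positivity
  have hF : Facts (Z 2 a) (ρ₀ a) f C :=
    { r0 := hr
      nonneg := fun L N => Pool.Agent.J4.H99.LY.Z_nonneg ha L N
      one := fun L => Pool.Agent.J4.H99.LY.Z_zero ha L
      step := fun L hL N => Pool.Agent.J4.H99.LY.Z_step ha hL N
      zero := fun ρ hρ L N h => hzero ρ hρ L N h
      fe := fun ρ h1 h2 L N h => hfe ρ h1 h2 L N h
      bd := fun ρ h1 h2 => hb ρ h1 h2 }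
  have hv : FreeVolumeAsymptotics.v₀ a = 1 / ρ₀ a := by
    unfold FreeVolumeAsymptotics.v₀ ρ₀
    rw [one_div_one_div]
  rw [hv] at hK
  have hmono : ∀ L L' N, L ≤ L' → Z 2 a L' N = 0 → Z 2 a L N = 0 :=
    fun L L' N h1 h2 => Pool.Agent.J4.H99.LY.Z_mono_zero ha h1 h2
  refine ⟨fun L => exists_xi hF hmono L, fun Ξ hΞ => ?_⟩
  have hΞ' : ∀ L N, (Ξ L).coeff N = Z 2 a L N := fun L N => hΞ L N
  have hev : ∀ L (z : ℝ), 0 ≤ z → ‖(Ξ L).eval (z : ℂ)‖ =
      ∑ j ∈ Finset.range ((Ξ L).natDegree + 1), Z 2 a L j * z ^ j :=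
    fun L z hz => eval_eq (hΞ' L) (hF.nonneg L) hz
  refine ⟨?_, ⟨pr (ρ₀ a) f, fun z hz => ?_, ?_⟩, fun ε hε => ?_, fun ε hε => ?_⟩
  · refine (natDegree_div hΞ' hF).congr fun L => ?_
    rw [splits_iff_card_roots.1 (IsAlgClosed.splits (Ξ L))]
  · refine (pressure hΞ' hF hz).congr fun L => ?_
    rw [hev L z hz.le]
  · have e1 : 2 * Real.log (2 / ρ₀ a) = Real.log (12 * a ^ 2) + Real.log (4 * a ^ 2) := by
      rw [← Real.log_mul (by positivity) (by positivity)]
      have e2 : (12 * a ^ 2) * (4 * a ^ 2) = (2 / ρ₀ a) ^ 2 := by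
        have h3 : √3 ^ 2 = 3 := Real.sq_sqrt (by norm_num)
        unfold ρ₀
        rw [div_div_eq_mul_div, div_one]
        calc (12 * a ^ 2) * (4 * a ^ 2) = 16 * 3 * a ^ 4 := by ring
          _ = 16 * √3 ^ 2 * a ^ 4 := by rw [h3]
          _ = _ := by ring
      rw [e2, Real.log_pow]
      norm_num
    have e : ρ₀ a * (2 * Real.log (2 / ρ₀ a) - 2 - (Real.log (12 * a ^ 2) - s)) =
        ρ₀ a * (Real.log (4 * a ^ 2) + (s - 2)) := by
      rw [e1]; ring
    rw [← e]
    exact pr_asymp hΞ' hF hK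
  · obtain ⟨T, hT, h⟩ := mean_ge hF hΞ' hK hε
    refine ⟨T, hT, fun t ht => ?_⟩
    filter_upwards [h t ht] with L hL
    rw [hev L t (by linarith)]
    exact hL
  · obtain ⟨T, hT, h⟩ := Pool.Agent.J4.H99.LY.zeros hΞ' hF hK hε
    exact ⟨T, hT, h⟩

end Pool.Agent.Results.MP_09cbbd_mp.LeeYangZeros
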