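import Pool.Agent.J4.H90.NO.Final2
import Pool.Agent.J4.H90.NP.Sfa

/-!
# Hard spheres in high dimension have no positional order up to density `(log (2/√3) - ε) d 2^{-d}`

`N` hard spheres of radius `a` in the cube `[0,L]^d`, with an arbitrary boundary condition (fixed spheres outside the cube,
or none), with the uniform distribution on the configurations (canonical ensemble), `B` the volume of the ball of
radius `2a`, density `ρ` with `ρ B ≤ (log (2/√3) - ε) d`. For all large `d`, and `N`, `L` large (how large does not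
depend on the boundary condition):

(1) for every measurable one-body function `φ` with `|φ| ≤ ε d / 4` the exponential moment of
`∑ φ(x_i)` is at most the one of `N` independent uniform points, times `exp(N e^{-ε d / 6})`;

(2) more generally, for every trial profile `g` (measurable, zero outside the cube, mean `0`,
`|g| ≤ e^{ε d / 16}`, `|ρ 1_B * g| ≤ ε d / 16`, where `1_B *` is the convolution with the indicator function of the
ball of radius `2a`) and every `|φ| ≤ ε d / 8`, the exponential moment of `∑ (φ + ρ 1_B * g)(x_i)` is at most the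
one of `∑ φ` for independent uniform points, times `exp(N ((ρ/2) mean (g 1_B * g) + e^{-ε d / 6}))`. For
`φ = log (1 + g)` this is the large deviation upper bound for the density profile `1 + g` with the functional
ideal + second virial, the functional of mean field theory;

(3) structure factor: for every wave vector `ξ ≠ 0`, phase `θ` and `0 < t ≤ ε / 12` the probability that
`|∑ cos(ξ.x_i + θ)| ≥ t N` is at most `2 exp(-N (t² (1 + ρ 1_B^(ξ)) - 2 e^{-ε d / 6}))`, where `1_B^` is the Fourier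
transform of the indicator function of the ball of radius `2a`: the Gaussian bound with the structure
factor `1 / (1 + ρ 1_B^(ξ))` of mean field theory;

(4) no Bragg peaks: for every `K`, outside an event of probability `exp(-N e^{-ε d / 6} / 2)` the Fourier
modes `∑ exp(i ξ.x_i)` of all the wave vectors `|ξ_j| ≤ K` differ from `N` times the mean of `exp(i ξ.y)` over the cube by
less than `8 e^{-ε d / 12} N`;

(5) no local order: the same holds for the sum over all the cells of side `R` of the largest deviation of the local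
Fourier modes (different wave vectors in different cells are allowed), for every fixed `R ≥ R₀(K)`.
This excludes polycrystals. The wave vector `0` gives the homogeneity of the local densities.

Proof. The method of Kleitman and Winston with weights: the weights `e^φ` of the cells of a fine grid enter in the
supersaturation (the quadratic form of the indicator function of the ball is bounded below by the minimum of its
Fourier transform, for arbitrary functions on the grid) and in the count. With the lower bound for the partition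
function of the starting library (mean field theorem) this gives (1). For (2) the weights change along the recursion: `w e^{-j p}` with `j` spheres left,
`p` the field of the trial profile, and the vertex is chosen by the degree minus the field. (3) is (2) for a plane wave. (4) and (5) follow
from (1) with Hoeffding's lemma and nets of wave vectors.
-/

set_option autoImplicit false

open MeasureTheory Filter Topology

namespace Pool.Agent.Results.MP_09cbbd_mp.NoPositionalOrder

/-- The configurations of `N` hard spheres of radius `a` with boundary condition `η`: the centres are in the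
cube `[0,L]^d`, have mutual distances at least `2a`, and distances at least `2a` from the points of `η`
(the centres of the fixed spheres). -/
def Conf (d : ℕ) (a L : ℝ) (N : ℕ) (η : Set (Fin d → ℝ)) : Set (Fin N → Fin d → ℝ) :=
  {x | (∀ i k, x i k ∈ Set.Icc (0 : ℝ) L) ∧
    (∀ i j, i ≠ j → 2 * a ≤ √(∑ k, (x i k - x j k) ^ 2)) ∧
    ∀ i, ∀ y ∈ η, 2 * a ≤ √(∑ k, (x i k - y k) ^ 2)}

/-- The probability of an event under the uniform distribution on the configurations. -/
noncomputable def prob (d : ℕ) (a L : ℝ) (N : ℕ) (η : Set (Fin d → ℝ))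
    (A : Set (Fin N → Fin d → ℝ)) : ℝ :=
  (volume {x | x ∈ Conf d a L N η ∧ x ∈ A}).toReal / (volume (Conf d a L N η)).toReal

/-- The expectation of a function under the uniform distribution on the configurations. -/
noncomputable def expect (d : ℕ) (a L : ℝ) (N : ℕ) (η : Set (Fin d → ℝ))
    (F : (Fin N → Fin d → ℝ) → ℝ) : ℝ :=
  (∫ x in Conf d a L N η, F x) / (volume (Conf d a L N η)).toReal

/-- The cube `[0,L]^d`. -/
def cube (d : ℕ) (L : ℝ) : Set (Fin d → ℝ) := {y | ∀ k, y k ∈ Set.Icc (0 : ℝ) L}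

/-- The mean of a function over the cube. -/
noncomputable def mean (d : ℕ) (L : ℝ) (φ : (Fin d → ℝ) → ℝ) : ℝ := (∫ y in cube d L, φ y) / L ^ d

/-- The mean of a complex function over the cube. -/
noncomputable def cmean (d : ℕ) (L : ℝ) (f : (Fin d → ℝ) → ℂ) : ℂ :=
  (∫ y in cube d L, f y) / (L : ℂ) ^ d

/-- The volume of the ball of radius `r` in `ℝ^d`. -/
noncomputable def ballVolume (d : ℕ) (r : ℝ) : ℝ :=
  (volume {x : Fin d → ℝ | ∑ k, x k ^ 2 < r ^ 2}).toReal

/-- The convolution of `g` with the indicator function of the ball of radius `r`. -/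
noncomputable def ballConv {d : ℕ} (r : ℝ) (g : (Fin d → ℝ) → ℝ) (x : Fin d → ℝ) : ℝ :=
  ∫ y in {y : Fin d → ℝ | ∑ k, (x k - y k) ^ 2 < r ^ 2}, g y

/-- The Fourier transform of the indicator function of the ball of radius `r`. -/
noncomputable def ballHat (d : ℕ) (r : ℝ) (ξ : Fin d → ℝ) : ℝ :=
  ∫ z in {z : Fin d → ℝ | ∑ k, z k ^ 2 < r ^ 2}, Real.cos (∑ k, ξ k * z k)

/-- The wave `exp(i ξ.y)`. -/
noncomputable def wave {d : ℕ} (ξ y : Fin d → ℝ) : ℂ :=
  Complex.exp (Complex.I * ((∑ k, ξ k * y k : ℝ) : ℂ))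

open Classical in
/-- The wave `exp(i ξ.(y - cR))` on the cell `cR + [0,R)^d`, zero outside the cell. -/
noncomputable def localWave {d n : ℕ} (R : ℝ) (c : Fin d → Fin n) (ξ y : Fin d → ℝ) : ℂ :=
  if ∀ k, ((c k : ℕ) : ℝ) * R ≤ y k ∧ y k < (((c k : ℕ) : ℝ) + 1) * R then
    wave ξ (fun k => y k - ((c k : ℕ) : ℝ) * R) else 0

/-- The configurations with a Bragg peak: some Fourier mode with `|ξ_k| ≤ K` deviates by at least
`t N` from `N` times the mean. -/
def Peak (d : ℕ) (L : ℝ) (N : ℕ) (K t : ℝ) : Set (Fin N → Fin d → ℝ) :=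
  {x | ∃ ξ : Fin d → ℝ, (∀ k, |ξ k| ≤ K) ∧ t * N ≤ ‖∑ i, wave ξ (x i) - N * cmean d L (wave ξ)‖}

/-- The configurations with local order in the cells of side `R`: for some choice of a wave vector in
every cell, the absolute values of the deviations of the local Fourier modes add up to at least `t N`. -/
def LocalPeaks (d : ℕ) (L : ℝ) (N : ℕ) (R K t : ℝ) : Set (Fin N → Fin d → ℝ) :=
  {x | ∃ ξ : (Fin d → Fin (⌊L / R⌋₊ + 1)) → Fin d → ℝ, (∀ c k, |ξ c k| ≤ K) ∧
    t * N ≤ ∑ c, ‖∑ i, localWave R c (ξ c) (x i) - N * cmean d L (localWave R c (ξ c))‖}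

/-- the configurations with a boundary condition outside the cube -/
lemma sub_Conf (d : ℕ) {a : ℝ} (ha : 0 < a) (L : ℝ) (N : ℕ) (η : Set (Fin d → ℝ))
    (hη : ∀ y ∈ η, y ∉ cube d L) : J4.H90.NO.Sub d (2 * a) L N (Conf d a L N η) := by
  have ha2 : 0 < 2 * a := by positivity
  have hle : ∀ s : ℝ, 2 * a ≤ √s ↔ (2 * a) ^ 2 ≤ s := fun s => Real.le_sqrt' ha2
  have hsub : Conf d a L N η ⊆ K4H61.HS.config d (2 * a) L N := by
    intro x hx
    exact ⟨hx.1, fun i j hij => (hle _).1 (hx.2.1 i j hij)⟩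
  have hC : Conf d a L N η = K4H61.HS.config d (2 * a) L N ∩
      ⋂ i, ⋂ y ∈ η, {x : Fin N → Fin d → ℝ | 2 * a ≤ √(∑ k, (x i k - y k) ^ 2)} := by
    ext x
    constructor
    · intro hx
      refine ⟨hsub hx, ?_⟩
      simp only [Set.mem_iInter]
      exact fun i y hy => hx.2.2 i y hy
    · rintro ⟨hx, hx2⟩
      simp only [Set.mem_iInter] at hx2
      exact ⟨hx.1, fun i j hij => (hle _).2 (hx.2 i j hij), fun i y hy => hx2 i y hy⟩
  refine ⟨?_, hsub, ?_⟩
  · rw [hC]
    refine (J4.H90.NO.config_meas d _ L N).inter (IsClosed.measurableSet ?_)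
    refine isClosed_iInter fun i => isClosed_iInter fun y => isClosed_iInter fun _ => ?_
    exact isClosed_le continuous_const (by fun_prop)
  · set v : Fin N → Fin d → ℝ := fun _ _ => 2 * a with hv
    have h1 : volume ((fun x => x + v) ⁻¹' (Conf d a L N η)) = volume (Conf d a L N η) :=
      measure_preimage_add_right volume v _
    rw [← h1]
    refine measure_mono fun x hx => ?_
    have hb : ∀ i k, 2 * a ≤ (x + v) i k ∧ (x + v) i k ≤ L - 2 * a := by
      intro i k
      have h2 := hx.1 i k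
      have h3 : (x + v) i k = x i k + 2 * a := rfl
      rw [h3]
      constructor <;> linarith [h2.1, h2.2]
    refine ⟨fun i k => ⟨by linarith [(hb i k).1], by linarith [(hb i k).2]⟩, fun i j hij => ?_,
      fun i y hy => ?_⟩
    · rw [hle]
      refine (hx.2 i j hij).trans (le_of_eq (Finset.sum_congr rfl fun k _ => ?_))
      have h3 : (x + v) i k - (x + v) j k = x i k - x j k := by
        change (x i k + 2 * a) - (x j k + 2 * a) = _
        ring
      rw [h3]
    · rw [hle]
      have h2 : ∃ k, ¬ (y k ∈ Set.Icc (0 : ℝ) L) := not_forall.1 (hη y hy)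
      obtain ⟨k, hk⟩ := h2
      have h4 : (2 * a) ^ 2 ≤ ((x + v) i k - y k) ^ 2 := by
        rw [Set.mem_Icc, not_and_or, not_le, not_le] at hk
        rcases hk with hk | hk
        · exact pow_le_pow_left₀ ha2.le (by linarith [(hb i k).1]) 2
        · have h5 : ((x + v) i k - y k) ^ 2 = (y k - (x + v) i k) ^ 2 := by ring
          rw [h5]
          exact pow_le_pow_left₀ ha2.le (by linarith [(hb i k).2]) 2
      refine h4.trans (Finset.single_le_sum (f := fun k => ((x + v) i k - y k) ^ 2)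
        (fun k _ => sq_nonneg _) (Finset.mem_univ k))

lemma localWave_eq {d n : ℕ} (R : ℝ) (c : Fin d → Fin n) (ξ : Fin d → ℝ) :
    localWave R c ξ = J4.H90.NO.chi R c ξ := by
  classical
  funext y
  unfold localWave J4.H90.NO.chi wave
  by_cases hy : y ∈ J4.H90.NO.cellF R c
  · rw [Set.indicator_of_mem hy]
    exact if_pos hy
  · rw [Set.indicator_of_notMem hy]
    exact if_neg hy

/-- **Hard spheres in high dimension have no positional order**, neither global nor local, up to the
density `(log (2/√3) - ε) d 2^{-d}`, for all boundary conditions. -/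
theorem result (ε : ℝ) (hε : 0 < ε) : ∃ d₀ : ℕ, ∀ d ≥ d₀, ∀ a > 0, ∀ ρ > 0,
    ρ * ballVolume d (2 * a) ≤ (Real.log (2 / √3) - ε) * d →
    ∀ (L : ℕ → ℝ) (N : ℕ → ℕ), Tendsto L atTop atTop →
    Tendsto (fun k => (N k : ℝ) / L k ^ d) atTop (𝓝 ρ) →
    (∀ᶠ k in atTop, ∀ η : Set (Fin d → ℝ), (∀ y ∈ η, y ∉ cube d (L k)) →
      0 < (volume (Conf d a (L k) (N k) η)).toReal ∧
      -- (1) exponential moments of all one-body functions
      (∀ φ : (Fin d → ℝ) → ℝ, Measurable φ → (∀ x, |φ x| ≤ ε / 4 * d) →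
        expect d a (L k) (N k) η (fun x => Real.exp (∑ i, φ (x i))) ≤
          mean d (L k) (fun y => Real.exp (φ y)) ^ (N k) *
            Real.exp (N k * Real.exp (-(ε / 6) * d))) ∧
      -- (2) the density functional
      (∀ φ g : (Fin d → ℝ) → ℝ, Measurable φ → (∀ x, |φ x| ≤ ε / 8 * d) →
        Measurable g → (∀ x, |g x| ≤ Real.exp (ε / 16 * d)) →
        (∀ x, x ∉ cube d (L k) → g x = 0) → mean d (L k) g = 0 →
        (∀ x, |ρ * ballConv (2 * a) g x| ≤ ε / 16 * d) →
        expect d a (L k) (N k) η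
            (fun x => Real.exp (∑ i, (φ (x i) + ρ * ballConv (2 * a) g (x i)))) ≤
          mean d (L k) (fun y => Real.exp (φ y)) ^ (N k) *
            Real.exp (N k * (ρ / 2 * mean d (L k) (fun y => g y * ballConv (2 * a) g y) +
              Real.exp (-(ε / 6) * d))))) ∧
    -- (3) structure factor
    (∀ ξ : Fin d → ℝ, ξ ≠ 0 → ∀ θ t : ℝ, 0 < t → t ≤ ε / 12 → ∀ᶠ k in atTop,
      ∀ η : Set (Fin d → ℝ), (∀ y ∈ η, y ∉ cube d (L k)) →
      prob d a (L k) (N k) η {x | t * N k ≤ |∑ i, Real.cos (∑ j, ξ j * x i j + θ)|} ≤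
        2 * Real.exp (-(N k * (t ^ 2 * (1 + ρ * ballHat d (2 * a) ξ) -
          2 * Real.exp (-(ε / 6) * d))))) ∧
    -- (4) no Bragg peaks
    (∀ K > 0, ∀ᶠ k in atTop, ∀ η : Set (Fin d → ℝ), (∀ y ∈ η, y ∉ cube d (L k)) →
      prob d a (L k) (N k) η (Peak d (L k) (N k) K (8 * Real.exp (-(ε / 12) * d))) ≤
        Real.exp (-(N k * Real.exp (-(ε / 6) * d) / 2))) ∧
    -- (5) no local order
    ∀ K > 0, ∃ R₀ > 0, ∀ R ≥ R₀, ∀ᶠ k in atTop, ∀ η : Set (Fin d → ℝ),
      (∀ y ∈ η, y ∉ cube d (L k)) →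
      prob d a (L k) (N k) η (LocalPeaks d (L k) (N k) R K (8 * Real.exp (-(ε / 12) * d))) ≤
        Real.exp (-(N k * Real.exp (-(ε / 6) * d) / 2)) := by
  obtain ⟨d₀, hd₀⟩ := J4.H90.NO.final ε hε
  obtain ⟨d₂, hd₂⟩ := J4.H90.NP.final3 ε hε
  obtain ⟨d₃, hd₃⟩ := J4.H90.NP.sf ε hε
  have h1 : ∀ᶠ d : ℕ in atTop, 2 * Real.exp (-(ε / 12 * (d : ℝ))) ≤ 1 := by
    have e2 : Tendsto (fun d : ℕ => ε / 12 * (d : ℝ)) atTop atTop :=
      tendsto_natCast_atTop_atTop.const_mul_atTop (by positivity)
    have e3 : Tendsto (fun d : ℕ => 2 * Real.exp (-(ε / 12 * (d : ℝ)))) atTop (𝓝 (2 * 0)) :=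
      (Real.tendsto_exp_neg_atTop_nhds_zero.comp e2).const_mul 2
    rw [mul_zero] at e3
    filter_upwards [e3.eventually_lt_const one_pos] with d k2 using k2.le
  obtain ⟨d₁, hd₁⟩ := eventually_atTop.1 h1
  refine ⟨max (max d₀ d₁) (max 1 (max d₂ d₃)), fun d hd a ha ρ hρ hlam L N hL hN => ?_⟩
  have hd0 : d ≥ d₀ := (le_max_left _ _).trans ((le_max_left _ _).trans hd)
  have hd1 : d ≥ d₁ := (le_max_right _ _).trans ((le_max_left _ _).trans hd)
  have hd2 : 1 ≤ d := (le_max_left _ _).trans ((le_max_right _ _).trans hd)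
  have hd3' : d ≥ max d₂ d₃ := (le_max_right _ _).trans ((le_max_right _ _).trans hd)
  have hd3 : d ≥ d₂ := (le_max_left _ _).trans hd3'
  have hd4 : d ≥ d₃ := (le_max_right _ _).trans hd3'
  have ha2 : 0 < 2 * a := by positivity
  have main := hd₀ d hd0 (2 * a) ha2 ρ hρ hlam L N hL hN
  have main2 := hd₂ d hd3 (2 * a) ha2 ρ hρ hlam L N hL hN
  have main3 := hd₃ d hd4 (2 * a) ha2 ρ hρ hlam L N hL hN
  have hx6 : -(ε / 6) * (d : ℝ) = -(ε / 6 * (d : ℝ)) := by ring
  have hx12 : -(ε / 12) * (d : ℝ) = -(ε / 12 * (d : ℝ)) := by ring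
  obtain ⟨hA, hloc⟩ := main
  refine ⟨?_, ?_, ?_, ?_⟩
  · filter_upwards [hA, main2, hL.eventually_gt_atTop 0] with k hkk hk2 hk3 η hη
    have hk := hkk _ (sub_Conf d ha (L k) (N k) η hη)
    have hk4 := hk2 _ (sub_Conf d ha (L k) (N k) η hη)
    rw [hx6]
    refine ⟨hk.1, fun φ hφ hφM => ?_, fun φ g hφ hφM hg hgΓ hgs hg0 hfld => ?_⟩
    · unfold expect
      rw [div_le_iff₀ hk.1]
      have h2 := hk.2.1 φ hφ hφM
      have h3 : ∀ x : Fin (N k) → Fin d → ℝ, Real.exp (∑ i, φ (x i)) = ∏ i, Real.exp (φ (x i)) :=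
        fun x => Real.exp_sum _ _
      simp_rw [h3]
      refine h2.trans (le_of_eq ?_)
      have h4 : J4.H90.NO.avg d (L k) (fun y => Real.exp (φ y)) =
          mean d (L k) (fun y => Real.exp (φ y)) := rfl
      rw [h4]
      ring
    · unfold expect
      rw [div_le_iff₀ hk.1]
      have hLd : (0 : ℝ) < L k ^ d := by positivity
      have hg0' : ∫ x in J4.H90.NO.cube d (L k), g x = 0 := by
        have h5 : (∫ x in J4.H90.NO.cube d (L k), g x) / L k ^ d = 0 := hg0
        rw [div_eq_zero_iff] at h5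
        exact h5.resolve_right hLd.ne'
      refine (hk4 φ g hφ hφM hg hgΓ hgs hg0' hfld).trans (le_of_eq ?_)
      have h4 : J4.H90.NO.avg d (L k) (fun y => Real.exp (φ y)) =
          mean d (L k) (fun y => Real.exp (φ y)) := rfl
      have h6 : (∫ x in J4.H90.NO.cube d (L k), g x * J4.H90.NP.fld (2 * a) g x) / L k ^ d =
          mean d (L k) (fun y => g y * ballConv (2 * a) g y) := rfl
      rw [h4, h6]
      ring
  · intro ξ hξ θ t ht0 ht1
    filter_upwards [main3 ξ hξ θ t ht0 ht1, main3 ξ hξ (θ + Real.pi) t ht0 ht1, hA] with k k1' k2' k3' η hη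
    have hS := sub_Conf d ha (L k) (N k) η hη
    have k1 := k1' _ hS
    have k2 := k2' _ hS
    have k3 := (k3' _ hS).1
    have hfin : volume (Conf d a (L k) (N k) η) < ⊤ :=
      lt_of_le_of_lt (measure_mono hS.2.1) (K4H61.HS.config_lt_top (2 * a) (L k) (N k))
    have hcos : ∀ x : Fin (N k) → Fin d → ℝ, ∑ i, Real.cos (∑ j, ξ j * x i j + (θ + Real.pi)) =
        -∑ i, Real.cos (∑ j, ξ j * x i j + θ) := by
      intro x
      rw [← Finset.sum_neg_distrib]
      exact Finset.sum_congr rfl fun i _ => by rw [← add_assoc, Real.cos_add_pi]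
    simp_rw [hcos] at k2
    have hh : J4.H90.NP.ballHat d (2 * a) ξ = ballHat d (2 * a) ξ := rfl
    rw [hh] at k1 k2
    unfold prob
    rw [div_le_iff₀ k3, hx6]
    have hsub : {x | x ∈ Conf d a (L k) (N k) η ∧
          x ∈ {x | t * N k ≤ |∑ i, Real.cos (∑ j, ξ j * x i j + θ)|}} ⊆
        {x | x ∈ Conf d a (L k) (N k) η ∧ t * N k ≤ ∑ i, Real.cos (∑ j, ξ j * x i j + θ)} ∪
        {x | x ∈ Conf d a (L k) (N k) η ∧ t * N k ≤ -∑ i, Real.cos (∑ j, ξ j * x i j + θ)} := by
      rintro x ⟨hx1, hx2⟩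
      rcases le_abs.1 (show t * N k ≤ |∑ i, Real.cos (∑ j, ξ j * x i j + θ)| from hx2) with h | h
      · exact Or.inl ⟨hx1, h⟩
      · exact Or.inr ⟨hx1, h⟩
    have hf1 : volume {x | x ∈ Conf d a (L k) (N k) η ∧
        t * N k ≤ ∑ i, Real.cos (∑ j, ξ j * x i j + θ)} ≠ ⊤ :=
      (lt_of_le_of_lt (measure_mono fun x hx => hx.1) hfin).ne
    have hf2 : volume {x | x ∈ Conf d a (L k) (N k) η ∧
        t * N k ≤ -∑ i, Real.cos (∑ j, ξ j * x i j + θ)} ≠ ⊤ :=
      (lt_of_le_of_lt (measure_mono fun x hx => hx.1) hfin).ne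
    have h1 := ENNReal.toReal_mono (ENNReal.add_ne_top.2 ⟨hf1, hf2⟩)
      ((measure_mono (μ := volume) hsub).trans (measure_union_le _ _))
    rw [ENNReal.toReal_add hf1 hf2] at h1
    refine h1.trans ((add_le_add k1 k2).trans (le_of_eq ?_))
    ring
  · intro K hK
    have hδ0 : 0 < 2 * Real.exp (-(ε / 12 * (d : ℝ))) := by positivity
    have hδκ : (2 * Real.exp (-(ε / 12 * (d : ℝ)))) ^ 2 / 2 - Real.exp (-(ε / 6 * (d : ℝ))) =
        Real.exp (-(ε / 6 * (d : ℝ))) := by
      have : Real.exp (-(ε / 12 * (d : ℝ))) ^ 2 = Real.exp (-(ε / 6 * (d : ℝ))) := by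
        rw [← Real.exp_nat_mul]; congr 1; push_cast; ring
      rw [mul_pow, this]; ring
    have hg := J4.H90.NO.global_modes hd2 (2 * a) ρ (Real.exp (-(ε / 6 * (d : ℝ))))
      (2 * Real.exp (-(ε / 12 * (d : ℝ)))) K hρ (Real.exp_pos _) hδ0 (hd₁ d hd1) hδκ hK L N hL hN
      (hA.mono fun k hk C hC => (hk C hC).2.2 _ hδ0 (hd₁ d hd1))
    filter_upwards [hg, hA] with k k1' k2' η hη
    have hS := sub_Conf d ha (L k) (N k) η hη
    have k1 := k1' _ hS
    have k2 := (k2' _ hS).1
    unfold prob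
    rw [div_le_iff₀ k2, hx6, hx12]
    have h8 : 4 * (2 * Real.exp (-(ε / 12 * (d : ℝ)))) = 8 * Real.exp (-(ε / 12 * (d : ℝ))) := by ring
    rw [h8] at k1
    refine le_trans (le_of_eq ?_) (k1.trans (le_of_eq (mul_comm _ _)))
    rfl
  · intro K hK
    obtain ⟨R₀, hR₀, hR⟩ := hloc K hK
    refine ⟨R₀, hR₀, fun R hRR => ?_⟩
    filter_upwards [hR R hRR, hA] with k k1' k2' η hη
    have hS := sub_Conf d ha (L k) (N k) η hη
    have k1 := k1' _ hS
    have k2 := (k2' _ hS).1
    unfold prob
    rw [div_le_iff₀ k2, hx6, hx12]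
    refine le_trans (le_of_eq ?_) (k1.trans (le_of_eq (mul_comm _ _)))
    unfold LocalPeaks cmean
    simp_rw [localWave_eq]
    rfl

end Pool.Agent.Results.MP_09cbbd_mp.NoPositionalOrder
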