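import Pool.Agent.J4.H83.OO.Fin

/-!
# Hard disks near close packing: orientational order over distances `K / (1 - ρ/ρ₀)`

`N` hard disks of radius `a` in the square `[0, L]²`, canonical ensemble (the configurations `Conf` with
the uniform distribution), density `ρ = (1 - η) ρ₀`, `ρ₀ = 1 / (2 √3 a²)` the close-packing density. For all `K`
and `ε`, if `η` is small, then outside an event of probability at most `exp(-c N)`: (1) all but `ε η N` of
the particles have exactly six neighbours which form a regular hexagon up to `ε`; (2) for every `r` between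
`r₀ a` and `K a / η`, for all but `ε N` of the particles the mean of the bond-orientational order parameter over the
particles at distance at most `r` has modulus at least `1 - ε`.

For arbitrary packings of the density `(1 - η) ρ₀` both are false for large `K`: polycrystals with grains of the
size `C a / η`.

Proof. (a) Entropy: by the sharp asymptotics of the partition function (free volume theory with the
optimal constant), a positive fraction of the free area in defects has an exponentially small
probability, as only the free area outside the defects is available for the other particles. (b) Geometry: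
the rotation of the bonds by 60 degrees is a permutation of the bonds, so the next bond on a lattice line is a
permutation, and most of the lattice lines are free of defects for `C K / η` steps, together with the
`H` parallel lines. If a strip of `H` lines bends by the angle `Θ`, the lengths of its boundary lines differ by
`(√3/2) H Θ`, but the line with `X` bonds has the length between `X` and `X` plus the sum of the gaps
`= X + O(K)`; so `Θ = O(K / H)`. (c) The lines crossing a typical line form a grid, which contains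
nearly all the particles near its centre, because a packing has no more particles.
-/

set_option autoImplicit false

open MeasureTheory Filter Topology

namespace Pool.Agent.Results.MP_09cbbd_mp.OrientationalOrder

/-- The close-packing density of disks of radius `a`. -/
noncomputable def ρ₀ (a : ℝ) : ℝ := 1 / (2 * √3 * a ^ 2)

/-- The configurations of `N` hard disks of radius `a` with centres in the square `[0, L]²`. -/
def Conf (a L : ℝ) (N : ℕ) : Set (Fin N → ℂ) :=
  {x | (∀ i, (0 ≤ (x i).re ∧ (x i).re ≤ L) ∧ 0 ≤ (x i).im ∧ (x i).im ≤ L) ∧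
    ∀ i j, i ≠ j → 2 * a ≤ ‖x i - x j‖}

/-- The thermodynamic limit: squares of side `L → ∞` and `N / L² → ρ`. -/
def Thermo (ρ : ℝ) (L : ℕ → ℝ) (N : ℕ → ℕ) : Prop :=
  Tendsto L atTop atTop ∧ Tendsto (fun k => (N k : ℝ) / L k ^ 2) atTop (𝓝 ρ)

open Classical in
/-- The neighbours of the particle `i`: the other particles at a distance less than
`4 a / √3 = 1.1547… · 2 a`. -/
noncomputable def nbr {N : ℕ} (a : ℝ) (x : Fin N → ℂ) (i : Fin N) : Finset (Fin N) :=
  Finset.univ.filter fun j => j ≠ i ∧ ‖x j - x i‖ < 4 * a / √3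

/-- The bond-orientational order parameter of the particle `i`: the mean of `((x_j - x_i) / |x_j - x_i|)⁶`
over its neighbours `j` (zero without neighbours). -/
noncomputable def ψ {N : ℕ} (a : ℝ) (x : Fin N → ℂ) (i : Fin N) : ℂ :=
  (1 / ((nbr a x i).card : ℂ)) * ∑ j ∈ nbr a x i, ((x j - x i) / (‖x j - x i‖ : ℂ)) ^ 6

/-- `ζ = e^{iπ/3}`. -/
noncomputable def ζ : ℂ := ⟨1 / 2, √3 / 2⟩

/-- The particle `i` has exactly six neighbours, and they form a regular hexagon of side `2 a` up to the
relative error `ε`. -/
def Hexagonal {N : ℕ} (a ε : ℝ) (x : Fin N → ℂ) (i : Fin N) : Prop :=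
  (nbr a x i).card = 6 ∧ ∀ j ∈ nbr a x i, ‖x j - x i‖ ≤ (1 + ε) * (2 * a) ∧
    ∃ k ∈ nbr a x i, ‖(x k - x i) - ζ * (x j - x i)‖ ≤ ε * (2 * a)

open Classical in
/-- The defects: the particles which are not hexagonal. -/
noncomputable def defects {N : ℕ} (a ε : ℝ) (x : Fin N → ℂ) : Finset (Fin N) :=
  Finset.univ.filter fun i => ¬ Hexagonal a ε x i

open Classical in
/-- The particles at distance at most `r` of the particle `i`. -/
noncomputable def ball {N : ℕ} (x : Fin N → ℂ) (i : Fin N) (r : ℝ) : Finset (Fin N) :=
  Finset.univ.filter fun j => ‖x j - x i‖ ≤ r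

open Classical in
/-- The particles `i` such that the mean of `ψ` over the particles at distance at most `r` of `i` has
modulus less than `1 - ε`. -/
noncomputable def disordered {N : ℕ} (a ε r : ℝ) (x : Fin N → ℂ) : Finset (Fin N) :=
  Finset.univ.filter fun i => ‖∑ j ∈ ball x i r, ψ a x j‖ < (1 - ε) * ((ball x i r).card : ℝ)

open Pool.Agent.J4.H83.FV Pool.Agent.J4.H83.HD Pool.Agent.J4.H83.OO in
theorem result : ∀ K ε : ℝ, 0 < K → 0 < ε → ∃ η₀ r₀ : ℝ, 0 < η₀ ∧ 0 < r₀ ∧
    ∀ η, 0 < η → η < η₀ → ∃ c : ℝ, 0 < c ∧ ∀ a, 0 < a → ∀ L N, Thermo ((1 - η) * ρ₀ a) L N →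
      ∀ᶠ k in atTop, 0 < volume (Conf a (L k) (N k)) ∧
        volume {x | x ∈ Conf a (L k) (N k) ∧
          (ε * η * N k < ((defects a ε x).card : ℝ) ∨
            ∃ r, r₀ * a ≤ r ∧ r ≤ K * a / η ∧ ε * N k < ((disordered a ε r x).card : ℝ))} ≤
          ENNReal.ofReal (Real.exp (-c * N k)) * volume (Conf a (L k) (N k)) := by
  classical
  intro K ε hK hε
  set K' : ℝ := max K 1 with hK'
  have hK'1 : 1 ≤ K' := le_max_right _ _
  have hKK' : K ≤ K' := le_max_left _ _
  obtain ⟨δ₀, r₀, hδ₀, hr₀, hmain⟩ := norm_order K' (ε / 2) hK'1 (by positivity)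
  have h3p : 0 < √3 := by positivity
  have h3a : (1.7 : ℝ) < √3 := by
    rw [Real.lt_sqrt (by norm_num)]; norm_num
  have h3b : √3 < 1.8 := by
    rw [Real.sqrt_lt' (by norm_num)]; norm_num
  have h3s : √3 * √3 = 3 := Real.mul_self_sqrt (by norm_num)
  refine ⟨min (1 / 2) (δ₀ / 2), 2 * r₀, by positivity, by positivity, ?_⟩
  intro η hη hη₀
  have hη1 : η < 1 / 2 := hη₀.trans_le (min_le_left _ _)
  have hη2 : η < δ₀ / 2 := hη₀.trans_le (min_le_right _ _)
  have h1η : 0 < 1 - η := by linarith
  set δ : ℝ := √3 / 2 * η / (1 - η) with hδdef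
  have hδ : 0 < δ := by positivity
  have hδ1 : δ ≤ √3 * η := by
    rw [hδdef, div_le_iff₀ h1η]
    nlinarith [mul_pos h3p hη]
  have hδ2 : δ < δ₀ := by nlinarith
  obtain ⟨c, hc, hseq⟩ := hmain δ hδ hδ2
  refine ⟨c, hc, ?_⟩
  intro a ha L N hLN
  have h2a : 0 < 2 * a := by positivity
  have t1 : Tendsto (fun k => L k / (2 * a)) atTop atTop := hLN.1.atTop_div_const h2a
  have t2 : Tendsto (fun k => (N k : ℝ) / (L k / (2 * a)) ^ 2) atTop (𝓝 (1 / (√3 / 2 + δ))) := by
    have e : 1 / (√3 / 2 + δ) = (2 * a) ^ 2 * ((1 - η) * ρ₀ a) := by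
      rw [hδdef]
      unfold ρ₀
      have : √3 / 2 + √3 / 2 * η / (1 - η) = √3 / 2 / (1 - η) := by
        field_simp
        ring
      rw [this]
      field_simp
    rw [e]
    refine (hLN.2.const_mul ((2 * a) ^ 2)).congr fun k => ?_
    rw [div_pow, div_div_eq_mul_div]
    ring
  filter_upwards [hseq _ N t1 t2] with k hk
  have hConf : Conf a (L k) (N k) = CF a (N k) (L k) := rfl
  have hvC : volume (Conf a (L k) (N k)) = ENNReal.ofReal ((2 * a) ^ (2 * N k)) *
      volume (A (N k) (L k / (2 * a))) := by
    rw [← vol_smul ha, hConf]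
    congr 1
    ext x
    exact mem_CF ha _ x
  refine ⟨?_, ?_⟩
  · rw [hvC]
    exact ENNReal.mul_pos (by simpa using (by positivity : (0:ℝ) < (2 * a) ^ (2 * N k))) hk.1.ne'
  have hle : volume {x | x ∈ Conf a (L k) (N k) ∧
          (ε * η * N k < ((defects a ε x).card : ℝ) ∨
            ∃ r, 2 * r₀ * a ≤ r ∧ r ≤ K * a / η ∧ ε * N k < ((disordered a ε r x).card : ℝ))} ≤
      volume {x : Fin (N k) → ℂ | ((2 * a)⁻¹ : ℝ) • x ∈
        BadS (N k) (L k / (2 * a)) (ε / 2) δ r₀ (K' / δ)} := by
    refine measure_mono ?_
    rintro x ⟨hx, hbad⟩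
    set y : Fin (N k) → ℂ := ((2 * a)⁻¹ : ℝ) • x with hy
    have hyv : ∀ i j, y j - y i = ((2 * a)⁻¹ : ℝ) * (x j - x i) := by
      intro i j
      rw [hy]
      simp only [Pi.smul_apply, Complex.real_smul]
      ring
    have hyn : ∀ i j, ‖y j - y i‖ = ‖x j - x i‖ / (2 * a) := by
      intro i j
      rw [hyv, norm_mul, Complex.norm_real, Real.norm_eq_abs, abs_of_pos (inv_pos.2 h2a),
        inv_mul_eq_div]
    have hnbr : ∀ i, nbr a x i = Nbr y i := by
      intro i
      ext j
      simp only [nbr, Nbr, Finset.mem_filter, Finset.mem_univ, true_and]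
      refine and_congr Iff.rfl ?_
      rw [hyn, div_lt_iff₀ h2a]
      have : 2 * R * (2 * a) = 4 * a / √3 := by
        unfold R
        field_simp
        nlinarith
      rw [this]
    have hψ : ∀ i, ψ a x i = psi y i := by
      intro i
      unfold ψ psi
      rw [hnbr]
      congr 1
      refine Finset.sum_congr rfl fun j _ => ?_
      congr 1
      rw [hyn, hyv]
      have h2 : ((2 * a : ℝ) : ℂ) ≠ 0 := by exact_mod_cast h2a.ne'
      have ha' : (a : ℂ) ≠ 0 := by exact_mod_cast ha.ne'
      push_cast
      field_simp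
      try rw [mul_div_mul_right _ _ ha']
    have hball : ∀ i r, ball x i r = Finset.univ.filter fun j => ‖y j - y i‖ ≤ r / (2 * a) := by
      intro i r
      ext j
      simp only [ball, Finset.mem_filter, Finset.mem_univ, true_and]
      rw [hyn, div_le_div_iff_of_pos_right h2a]
    have hNk : (0 : ℝ) ≤ N k := Nat.cast_nonneg _
    refine ⟨(mem_CF ha _ x).1 hx, ?_⟩
    rcases hbad with h | ⟨r, hr1, hr2, h⟩
    · left
      have hsub : defects a ε x ⊆ Finset.univ.filter fun i => ¬ Hx y (ε / 2) i := by
        intro i hi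
        simp only [defects, Finset.mem_filter, Finset.mem_univ, true_and] at hi ⊢
        intro hH
        apply hi
        refine ⟨by rw [hnbr]; exact hH.1, fun j hj => ?_⟩
        rw [hnbr] at hj
        obtain ⟨h1, k', hk', h2⟩ := hH.2 j hj
        rw [hyn, div_le_iff₀ h2a] at h1
        refine ⟨h1.trans (mul_le_mul_of_nonneg_right (by linarith) h2a.le), k', ?_, ?_⟩
        · rw [hnbr]; exact hk'
        · have hz : ze = ζ := by
            unfold ze om ζ
            apply Complex.ext
            · simp; norm_num
            · simp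
          rw [hyv, hyv, hz, mul_left_comm, ← mul_sub, norm_mul, Complex.norm_real, Real.norm_eq_abs,
            abs_of_pos (inv_pos.2 h2a), inv_mul_eq_div, div_le_iff₀ h2a] at h2
          exact h2.trans (mul_le_mul_of_nonneg_right (by linarith) h2a.le)
      have h1 : ((defects a ε x).card : ℝ) ≤
          ((Finset.univ.filter fun i => ¬ Hx y (ε / 2) i).card : ℝ) := by
        exact_mod_cast Finset.card_le_card hsub
      have h2 : ε / 2 * δ * N k ≤ ε * η * N k := by
        apply mul_le_mul_of_nonneg_right _ hNk
        nlinarith [mul_pos hε hη]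
      linarith
    · right
      refine ⟨r / (2 * a), ?_, ?_, ?_⟩
      · rw [le_div_iff₀ h2a]; linarith
      · rw [div_le_iff₀ h2a]
        refine hr2.trans ?_
        rw [div_mul_eq_mul_div, div_le_div_iff₀ hη hδ]
        have h1 : K * a * δ ≤ K' * a * (√3 * η) :=
          mul_le_mul (mul_le_mul_of_nonneg_right hKK' ha.le) hδ1 hδ.le (by positivity)
        have h2 : 0 < K' * a * η := by positivity
        nlinarith
      · have hsub : disordered a ε r x ⊆ Finset.univ.filter fun i =>
            ‖∑ j ∈ Finset.univ.filter (fun j => ‖y j - y i‖ ≤ r / (2 * a)), psi y j‖ <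
              (1 - ε / 2) * ((Finset.univ.filter fun j => ‖y j - y i‖ ≤ r / (2 * a)).card : ℝ) := by
          intro i hi
          simp only [disordered, Finset.mem_filter, Finset.mem_univ, true_and] at hi ⊢
          rw [hball] at hi
          simp only [hψ] at hi
          refine hi.trans_le (mul_le_mul_of_nonneg_right (by linarith) (Nat.cast_nonneg _))
        have h1 : ((disordered a ε r x).card : ℝ) ≤ ((Finset.univ.filter fun i =>
            ‖∑ j ∈ Finset.univ.filter (fun j => ‖y j - y i‖ ≤ r / (2 * a)), psi y j‖ <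
              (1 - ε / 2) * ((Finset.univ.filter fun j => ‖y j - y i‖ ≤ r / (2 * a)).card : ℝ)).card :
              ℝ) := by
          exact_mod_cast Finset.card_le_card hsub
        have h2 : ε / 2 * N k ≤ ε * N k := mul_le_mul_of_nonneg_right (by linarith) hNk
        linarith
  refine hle.trans ?_
  rw [vol_smul ha, hvC]
  calc ENNReal.ofReal ((2 * a) ^ (2 * N k)) *
        volume (BadS (N k) (L k / (2 * a)) (ε / 2) δ r₀ (K' / δ)) ≤
        ENNReal.ofReal ((2 * a) ^ (2 * N k)) * (ENNReal.ofReal (Real.exp (-c * N k)) *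
          volume (A (N k) (L k / (2 * a)))) := by gcongr; exact hk.2
    _ = _ := by ring

end Pool.Agent.Results.MP_09cbbd_mp.OrientationalOrder
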